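import Pool.Agent.helper46.T1.SpecP

/-!
# MP_07c750, project T1, row XDK: slowly varying functions, proved by helper2
-/

set_option autoImplicit false

open scoped MatrixGroups ContDiff Topology UpperHalfPlane ComplexConjugate
open UpperHalfPlane MeasureTheory Filter Set

namespace Pool.Agent.TP

open Pool.Agent.RS Pool.Agent.MS

theorem XDK_mv (Ψ Ψ' : SL(2, ℝ) → ℝ) (p : ℝ → SL(2, ℝ)) (B : ℝ) (h0 : p 0 = 1)
    (ha : ∀ s t : ℝ, p (s + t) = p s * p t) (hd : ∀ g, HasDerivAt (fun t => Ψ (g * p t)) (Ψ' g) 0)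
    (hb : ∀ g, |Ψ' g| ≤ B) (g : SL(2, ℝ)) (x : ℝ) : |Ψ (g * p x) - Ψ g| ≤ B * |x| := by
  have hder : ∀ t : ℝ, HasDerivAt (fun t => Ψ (g * p t)) (Ψ' (g * p t)) t := by
    intro t
    have h1 := hd (g * p t)
    have h2 : HasDerivAt (fun h => Ψ ((g * p t) * p h)) (Ψ' (g * p t)) (t - t) := by
      rw [sub_self]; exact h1
    have h3 := HasDerivAt.comp_sub_const t t h2
    have h4 : (fun x => Ψ (g * p t * p (x - t))) = fun t => Ψ (g * p t) := by
      funext s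
      rw [mul_assoc, ← ha]
      congr 3
      ring
    rw [h4] at h3
    exact h3
  have h := Convex.norm_image_sub_le_of_norm_hasDerivWithin_le (f := fun t => Ψ (g * p t))
    (f' := fun t => Ψ' (g * p t)) (C := B) (s := (Set.univ : Set ℝ)) (x := 0) (y := x)
    (fun t _ => (hder t).hasDerivWithinAt) (fun t _ => by rw [Real.norm_eq_abs]; exact hb _)
    convex_univ (Set.mem_univ _) (Set.mem_univ _)
  simp only [h0, mul_one, sub_zero, Real.norm_eq_abs] at h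
  exact h

theorem XDK_a0 : aM 0 = 1 := by
  apply Subtype.ext
  ext i j
  fin_cases i <;> fin_cases j <;> simp [aM]

theorem XDK_n0 : nM 0 = 1 := by
  apply Subtype.ext
  ext i j
  fin_cases i <;> fin_cases j <;> simp [nM]

theorem XDK_l0 : lM 0 = 1 := by
  apply Subtype.ext
  ext i j
  fin_cases i <;> fin_cases j <;> simp [lM]

theorem XDK_aa (s t : ℝ) : aM (s + t) = aM s * aM t := by
  apply Subtype.ext
  ext i j
  fin_cases i <;> fin_cases j <;> simp [aM, Matrix.mul_apply, Fin.sum_univ_two, ← Real.exp_add] <;> ring_nf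

theorem XDK_nn (s t : ℝ) : nM (s + t) = nM s * nM t := by
  apply Subtype.ext
  ext i j
  fin_cases i <;> fin_cases j <;> simp [nM, Matrix.mul_apply, Fin.sum_univ_two, add_comm]

theorem XDK_ll (s t : ℝ) : lM (s + t) = lM s * lM t := by
  apply Subtype.ext
  ext i j
  fin_cases i <;> fin_cases j <;> simp [lM, Matrix.mul_apply, Fin.sum_univ_two, add_comm]

theorem XDK_det (k : SL(2, ℝ)) : k.1 0 0 * k.1 1 1 - k.1 0 1 * k.1 1 0 = 1 := by
  have h := k.2
  rw [Matrix.det_fin_two] at h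
  exact h

theorem XDK_dec (k : SL(2, ℝ)) (hd : 0 < k.1 1 1) :
    k = nM (k.1 0 1 / k.1 1 1) * aM (-2 * Real.log (k.1 1 1)) * lM (k.1 1 0 / k.1 1 1) := by
  have hdet := XDK_det k
  have e1 : Real.exp (-2 * Real.log (k.1 1 1) / 2) = (k.1 1 1)⁻¹ := by
    rw [show -2 * Real.log (k.1 1 1) / 2 = -Real.log (k.1 1 1) by ring, Real.exp_neg, Real.exp_log hd]
  have e2 : Real.exp (-(-2 * Real.log (k.1 1 1) / 2)) = k.1 1 1 := by
    rw [show -(-2 * Real.log (k.1 1 1) / 2) = Real.log (k.1 1 1) by ring, Real.exp_log hd]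
  have hne : k.1 1 1 ≠ 0 := hd.ne'
  apply Subtype.ext
  have hm : (nM (k.1 0 1 / k.1 1 1) * aM (-2 * Real.log (k.1 1 1)) * lM (k.1 1 0 / k.1 1 1)).1
      = !![1, k.1 0 1 / k.1 1 1; 0, 1] * !![(k.1 1 1)⁻¹, 0; 0, k.1 1 1] * !![1, 0; k.1 1 0 / k.1 1 1, 1] := by
    rw [← e1]
    nth_rewrite 6 [← e2]
    rfl
  rw [hm]
  ext i j
  fin_cases i <;> fin_cases j
  · simp [Matrix.mul_apply, Fin.sum_univ_two]
    field_simp
    linarith
  · simp [Matrix.mul_apply, Fin.sum_univ_two]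
    field_simp
  · simp [Matrix.mul_apply, Fin.sum_univ_two]
    field_simp
  · simp [Matrix.mul_apply, Fin.sum_univ_two]

theorem XDK_pos (Γ : Subgroup SL(2, ℝ)) (Ψ Ψa Ψn Ψl : SL(2, ℝ) → ℝ) (om Λ : ℝ) (hS : SF Γ Ψ Ψa Ψn Ψl)
    (hom : 0 ≤ om) (hΛ : 0 ≤ Λ) (ha : ∀ g, |Ψa g| ≤ om) (hn : ∀ g, |Ψn g| ≤ om) (hl : ∀ g, |Ψl g| ≤ Λ)
    (g k : SL(2, ℝ)) (hk : ∀ i j, |k.1 i j| ≤ 3) (hc : |k.1 1 0| ≤ 1 / 10) (hd : 0 < k.1 1 1) :
    |Ψ (g * k) - Ψ g| ≤ 16 * om + 5 * Λ * |k.1 1 0| := by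
  have hdet := XDK_det k
  have h00 := hk 0 0
  have h01 := hk 0 1
  have h11 := hk 1 1
  set a := k.1 0 0 with ha'
  set b := k.1 0 1 with hb'
  set c := k.1 1 0 with hc'
  set d := k.1 1 1 with hd'
  have hbc : |b * c| ≤ 3 / 10 := by
    rw [abs_mul]
    calc |b| * |c| ≤ 3 * (1 / 10) := mul_le_mul h01 hc (abs_nonneg _) (by norm_num)
      _ = 3 / 10 := by norm_num
  have had : 7 / 10 ≤ a * d := by
    have := (abs_le.1 hbc).1
    linarith
  have hd2 : 7 / 30 ≤ d := by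
    have h1 : a ≤ 3 := (abs_le.1 h00).2
    nlinarith
  have hd3 : d ≤ 3 := (abs_le.1 h11).2
  have hx : |b / d| ≤ 13 := by
    rw [abs_div, abs_of_pos hd, div_le_iff₀ hd]
    linarith
  have hz : |c / d| ≤ 5 * |c| := by
    rw [abs_div, abs_of_pos hd, div_le_iff₀ hd]
    nlinarith [abs_nonneg c]
  have he1 := Real.exp_one_gt_d9
  have he3 : (20 : ℝ) < Real.exp 3 := by
    have h1 : Real.exp 3 = Real.exp 1 ^ 3 := by rw [← Real.exp_nat_mul]; norm_num
    rw [h1]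
    nlinarith [pow_le_pow_left₀ (by norm_num : (0 : ℝ) ≤ 2.7182818283) he1.le 3]
  have hlo : |-2 * Real.log d| ≤ 3 := by
    rw [abs_le]
    constructor
    · -- 2 log d ≤ 3
      have h1 : Real.log (d ^ 2) ≤ 3 := by
        rw [Real.log_le_iff_le_exp (by positivity)]
        nlinarith
      rw [Real.log_pow] at h1
      push_cast at h1
      linarith
    · have h1 : -3 ≤ Real.log (d ^ 2) := by
        rw [Real.le_log_iff_exp_le (by positivity), Real.exp_neg]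
        have h2 : (Real.exp 3)⁻¹ ≤ (20 : ℝ)⁻¹ := by
          apply inv_anti₀ (by norm_num) he3.le
        nlinarith
      rw [Real.log_pow] at h1
      push_cast at h1
      linarith
  have hdec := XDK_dec k hd
  rw [← hb', ← hc', ← hd'] at hdec
  have e1 := XDK_mv Ψ Ψn nM om XDK_n0 XDK_nn hS.dn hn g (b / d)
  have e2 := XDK_mv Ψ Ψa aM om XDK_a0 XDK_aa hS.da ha (g * nM (b / d)) (-2 * Real.log d)
  have e3 := XDK_mv Ψ Ψl lM Λ XDK_l0 XDK_ll hS.dl hl (g * nM (b / d) * aM (-2 * Real.log d)) (c / d)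
  have hgk : g * k = g * nM (b / d) * aM (-2 * Real.log d) * lM (c / d) := by
    rw [hdec]; simp only [mul_assoc]
  rw [hgk]
  have t1 : |Ψ (g * nM (b / d) * aM (-2 * Real.log d) * lM (c / d)) - Ψ g| ≤
      |Ψ (g * nM (b / d) * aM (-2 * Real.log d) * lM (c / d)) - Ψ (g * nM (b / d) * aM (-2 * Real.log d))|
      + |Ψ (g * nM (b / d) * aM (-2 * Real.log d)) - Ψ (g * nM (b / d))| + |Ψ (g * nM (b / d)) - Ψ g| := by
    have := abs_add_three (Ψ (g * nM (b / d) * aM (-2 * Real.log d) * lM (c / d)) - Ψ (g * nM (b / d) * aM (-2 * Real.log d)))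
      (Ψ (g * nM (b / d) * aM (-2 * Real.log d)) - Ψ (g * nM (b / d))) (Ψ (g * nM (b / d)) - Ψ g)
    calc _ = |(Ψ (g * nM (b / d) * aM (-2 * Real.log d) * lM (c / d)) - Ψ (g * nM (b / d) * aM (-2 * Real.log d))) +
      (Ψ (g * nM (b / d) * aM (-2 * Real.log d)) - Ψ (g * nM (b / d))) + (Ψ (g * nM (b / d)) - Ψ g)| := by ring_nf
      _ ≤ _ := this
  have m1 : om * |b / d| ≤ om * 13 := mul_le_mul_of_nonneg_left hx hom
  have m2 : om * |-2 * Real.log d| ≤ om * 3 := mul_le_mul_of_nonneg_left hlo hom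
  have m3 : Λ * |c / d| ≤ Λ * (5 * |c|) := mul_le_mul_of_nonneg_left hz hΛ
  linarith

theorem XDK_proof : XDK_stmt := by
  intro Γ Ψ Ψa Ψn Ψl om Λ hS hr hev hom hΛ ha hn hl g k hk
  by_cases hc : |k.1 1 0| ≤ 1 / 10
  · have hfin : ∀ k : SL(2, ℝ), (∀ i j, |k.1 i j| ≤ 3) → |k.1 1 0| ≤ 1 / 10 → 0 < k.1 1 1 →
        |Ψ (g * k) - Ψ g| ≤ 16 * om + 10 * (Λ + 1) * |k.1 1 0| := by
      intro k hk hc hd
      have h1 := XDK_pos Γ Ψ Ψa Ψn Ψl om Λ hS hom hΛ ha hn hl g k hk hc hd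
      have h2 := abs_nonneg (k.1 1 0)
      have h3 : 0 ≤ Λ * |k.1 1 0| := mul_nonneg hΛ h2
      nlinarith
    rcases lt_trichotomy (k.1 1 1) 0 with hd | hd | hd
    · have e : Ψ (g * (-k)) = Ψ (g * k) := by rw [mul_neg, hev]
      have h10 : (-k).1 1 0 = -(k.1 1 0) := rfl
      have h := hfin (-k) (fun i j => by
        have : (-k).1 i j = -(k.1 i j) := rfl
        rw [this, abs_neg]; exact hk i j) (by rw [h10, abs_neg]; exact hc)
        (by have : (-k).1 1 1 = -(k.1 1 1) := rfl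
            rw [this]; linarith)
      rw [e, h10, abs_neg] at h
      exact h
    · exfalso
      have hdet := XDK_det k
      rw [hd] at hdet
      have h01 := hk 0 1
      have hbc : |k.1 0 1 * k.1 1 0| ≤ 3 * (1 / 10) := by
        rw [abs_mul]; exact mul_le_mul h01 hc (abs_nonneg _) (by norm_num)
      have := (abs_le.1 hbc).1
      linarith
    · exact hfin k hk hc hd
  · push Not at hc
    have h1 := hr (g * k)
    have h2 := hr g
    have h3 : |Ψ (g * k) - Ψ g| ≤ 1 := by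
      rw [abs_le]; constructor <;> linarith [h1.1, h1.2, h2.1, h2.2]
    have h4 : 0 ≤ Λ * |k.1 1 0| := mul_nonneg hΛ (abs_nonneg _)
    nlinarith

end Pool.Agent.TP
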