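import Pool.Agent.helper52.T1.SpecF
import Pool.Agent.helper62.MS.SpecF

/-!
# MP_07c750, project T1, row FN2: theorem T1 (1), proved by helper2
-/

set_option autoImplicit false

open scoped MatrixGroups ContDiff Topology UpperHalfPlane ComplexConjugate
open UpperHalfPlane MeasureTheory Filter Set

namespace Pool.Agent.T1

open Pool.Agent.RS Pool.Agent.MS Pool.Agent.HV
open Pool.Agent.EN (XG MG mkX mkM fl pr)
open Pool.Agent.ER (Low LowJ)

/-- `bad` on the quotient -/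
noncomputable def FN2_b {X : Type} (f : ℝ → X → X) (κ : X → ℝ) (u : ℝ) (x : X) : ℝ :=
  κ x * (1 - κ (f u x)) + κ (f u x) * (1 - κ x)

/-- `Bd` on the quotient -/
noncomputable def FN2_B {X : Type} (f : ℝ → X → X) (κ : X → ℝ) (n : ℝ) (y0 : ℕ) (x : X) : ℝ :=
  ∑ i ∈ Finset.range (y0 + 1), FN2_b f κ ((i : ℕ) * n) x + (∫ u in (0 : ℝ)..n, FN2_b f κ u x) / n

section

variable {X : Type} [TopologicalSpace X] [CompactSpace X] [T2Space X] [SecondCountableTopology X]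
  [MeasurableSpace X] [BorelSpace X] (f : ℝ → X → X) (κ : X → ℝ)

omit [CompactSpace X] [T2Space X] [SecondCountableTopology X] [MeasurableSpace X] [BorelSpace X] in
theorem FN2_bcont (hf : EN.FlowOn f) (hκ : Continuous κ) :
    Continuous (fun q : ℝ × X => FN2_b f κ q.1 q.2) := by
  have h1 : Continuous (fun q : ℝ × X => κ (f q.1 q.2)) := hκ.comp hf.cont
  have h2 : Continuous (fun q : ℝ × X => κ q.2) := hκ.comp continuous_snd
  exact (h2.mul (continuous_const.sub h1)).add (h1.mul (continuous_const.sub h2))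

omit [TopologicalSpace X] [CompactSpace X] [T2Space X] [SecondCountableTopology X] [MeasurableSpace X] [BorelSpace X] in
theorem FN2_b01 (h01 : ∀ x, 0 ≤ κ x ∧ κ x ≤ 1) (u : ℝ) (x : X) : 0 ≤ FN2_b f κ u x ∧ FN2_b f κ u x ≤ 2 := by
  have a := h01 x
  have b := h01 (f u x)
  unfold FN2_b
  constructor
  · have e1 : 0 ≤ κ x * (1 - κ (f u x)) := mul_nonneg a.1 (by linarith [b.2])
    have e2 : 0 ≤ κ (f u x) * (1 - κ x) := mul_nonneg b.1 (by linarith [a.2])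
    linarith
  · have e1 : κ x * (1 - κ (f u x)) ≤ 1 * 1 := mul_le_mul a.2 (by linarith [b.1]) (by linarith [b.2]) (by norm_num)
    have e2 : κ (f u x) * (1 - κ x) ≤ 1 * 1 := mul_le_mul b.2 (by linarith [a.1]) (by linarith [a.2]) (by norm_num)
    linarith

omit [CompactSpace X] [T2Space X] [SecondCountableTopology X] [MeasurableSpace X] [BorelSpace X] in
theorem FN2_Bcont (hf : EN.FlowOn f) (hκ : Continuous κ) (n : ℝ) (y0 : ℕ) : Continuous (FN2_B f κ n y0) := by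
  have hb := FN2_bcont f κ hf hκ
  unfold FN2_B
  refine Continuous.add ?_ (Continuous.div_const ?_ _)
  · refine continuous_finsetSum _ fun i _ => ?_
    exact hb.comp (continuous_const.prodMk continuous_id)
  · have h2 : Continuous (Function.uncurry fun (x : X) (u : ℝ) => FN2_b f κ u x) := by
      have : (Function.uncurry fun (x : X) (u : ℝ) => FN2_b f κ u x) = (fun q : ℝ × X => FN2_b f κ q.1 q.2) ∘ Prod.swap := by
        funext q
        rfl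
      rw [this]
      exact hb.comp continuous_swap
    exact intervalIntegral.continuous_parametric_intervalIntegral_of_continuous' h2 0 n

omit [TopologicalSpace X] [CompactSpace X] [T2Space X] [SecondCountableTopology X] [MeasurableSpace X] [BorelSpace X] in
theorem FN2_B0 (h01 : ∀ x, 0 ≤ κ x ∧ κ x ≤ 1) (n : ℝ) (hn : 0 < n) (y0 : ℕ) (x : X) : 0 ≤ FN2_B f κ n y0 x := by
  unfold FN2_B
  refine add_nonneg (Finset.sum_nonneg fun i _ => (FN2_b01 f κ h01 _ x).1) (div_nonneg ?_ hn.le)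
  exact intervalIntegral.integral_nonneg hn.le fun u _ => (FN2_b01 f κ h01 u x).1

omit [T2Space X] in
theorem FN2_Bint (hf : EN.FlowOn f) (hκ : Continuous κ) (h01 : ∀ x, 0 ≤ κ x ∧ κ x ≤ 1) (μ : Measure X) [IsProbabilityMeasure μ]
    (n : ℝ) (hn : 0 < n) (y0 : ℕ) (Δ : ℝ) (hΔ : ∀ s : ℝ, ∫ x, FN2_b f κ s x ∂μ ≤ Δ) :
    ∫ x, FN2_B f κ n y0 x ∂μ ≤ (y0 + 2) * Δ := by
  have hb := FN2_bcont f κ hf hκ
  have hbc : ∀ u, Continuous (FN2_b f κ u) := fun u => hb.comp (continuous_const.prodMk continuous_id)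
  have hbi : ∀ u, Integrable (FN2_b f κ u) μ := fun u =>
    Integrable.of_bound (hbc u).aestronglyMeasurable 2 (Eventually.of_forall fun x => by
      rw [Real.norm_eq_abs, abs_of_nonneg (FN2_b01 f κ h01 u x).1]
      exact (FN2_b01 f κ h01 u x).2)
  have h2 : Continuous (Function.uncurry fun (x : X) (u : ℝ) => FN2_b f κ u x) := by
    have : (Function.uncurry fun (x : X) (u : ℝ) => FN2_b f κ u x) = (fun q : ℝ × X => FN2_b f κ q.1 q.2) ∘ Prod.swap := by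
      funext q
      rfl
    rw [this]
    exact hb.comp continuous_swap
  have hIc : Continuous fun x => ∫ u in (0 : ℝ)..n, FN2_b f κ u x :=
    intervalIntegral.continuous_parametric_intervalIntegral_of_continuous' h2 0 n
  have hIi : Integrable (fun x => (∫ u in (0 : ℝ)..n, FN2_b f κ u x) / n) μ := by
    obtain ⟨m, hm⟩ := isCompact_univ.exists_bound_of_continuousOn (hIc.div_const n).continuousOn
    exact Integrable.of_bound (hIc.div_const n).aestronglyMeasurable m (Eventually.of_forall fun x => hm x (mem_univ x))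
  have hsw : ∫ x, (∫ u in (0 : ℝ)..n, FN2_b f κ u x) ∂μ = ∫ u in (0 : ℝ)..n, ∫ x, FN2_b f κ u x ∂μ := by
    symm
    apply MeasureTheory.intervalIntegral_integral_swap
    have hfin : IsFiniteMeasure ((volume : Measure ℝ).restrict (Set.uIoc 0 n)) := by
      refine ⟨?_⟩
      rw [Measure.restrict_apply_univ, uIoc_of_le hn.le, Real.volume_Ioc]
      exact ENNReal.ofReal_lt_top
    refine Integrable.of_bound (C := 2) hb.aestronglyMeasurable (Eventually.of_forall fun q => ?_)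
    show ‖FN2_b f κ q.1 q.2‖ ≤ 2
    rw [Real.norm_eq_abs, abs_of_nonneg (FN2_b01 f κ h01 _ _).1]
    exact (FN2_b01 f κ h01 _ _).2
  have hΔ0 : 0 ≤ Δ := le_trans (integral_nonneg fun x => (FN2_b01 f κ h01 0 x).1) (hΔ 0)
  have e1 : ∫ u in (0 : ℝ)..n, ∫ x, FN2_b f κ u x ∂μ ≤ Δ * n := by
    have h3 : ∀ u ∈ Set.uIoc 0 n, ‖∫ x, FN2_b f κ u x ∂μ‖ ≤ Δ := by
      intro u _
      rw [Real.norm_eq_abs, abs_of_nonneg (integral_nonneg fun x => (FN2_b01 f κ h01 u x).1)]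
      exact hΔ u
    have h4 := intervalIntegral.norm_integral_le_of_norm_le_const h3
    rw [sub_zero, abs_of_pos hn] at h4
    exact (le_abs_self _).trans h4
  unfold FN2_B
  rw [integral_add (integrable_finsetSum _ fun i _ => hbi _) hIi, integral_finsetSum _ fun i _ => hbi _, integral_div, hsw]
  have e2 : ∑ i ∈ Finset.range (y0 + 1), ∫ x, FN2_b f κ ((i : ℕ) * n) x ∂μ ≤ ∑ _i ∈ Finset.range (y0 + 1), Δ :=
    Finset.sum_le_sum fun i _ => hΔ _
  rw [Finset.sum_const, Finset.card_range, nsmul_eq_mul] at e2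
  have e3 : (∫ u in (0 : ℝ)..n, ∫ x, FN2_b f κ u x ∂μ) / n ≤ Δ := by
    rw [div_le_iff₀ hn]
    exact e1
  push_cast at e2
  linarith

end

theorem FN2_flc {X : Type} [TopologicalSpace X] (f : ℝ → X → X) (hf : EN.FlowOn f) (t : ℝ) : Continuous (f t) := by
  have h : Continuous fun x : X => (t, x) := continuous_const.prodMk continuous_id
  exact hf.cont.comp h

theorem FN2_cont (φ : ℍ → ℂ) (h : QU.CD 2 φ) : Continuous φ := by
  have h1 : ContinuousOn (QU.onC φ) {w : ℂ | 0 < w.im} := ContDiffOn.continuousOn h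
  have h2 : Continuous fun z : ℍ => QU.onC φ (z : ℂ) :=
    h1.comp_continuous UpperHalfPlane.continuous_coe fun z => z.im_pos
  have h3 : (fun z : ℍ => QU.onC φ (z : ℂ)) = φ := by
    funext z
    unfold QU.onC
    simp
  rw [h3] at h2
  exact h2

/-- pigeonhole for a function with values in `[0, 1]` -/
theorem FN2_pig (G : ℕ → ℝ) (J : ℕ) (hJ : 1 ≤ J) (h0 : ∀ i, 0 ≤ G i) (h1 : ∀ i, G i ≤ 1) :
    ∃ i, i < J ∧ G (i + 1) ≤ G i + 1 / J := by
  by_contra h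
  push Not at h
  have h2 : ∑ _i ∈ Finset.range J, (1 / (J : ℝ)) < ∑ i ∈ Finset.range J, (G (i + 1) - G i) :=
    Finset.sum_lt_sum_of_nonempty ⟨0, Finset.mem_range.2 hJ⟩ fun i hi => by
      have := h i (Finset.mem_range.1 hi)
      linarith
  rw [Finset.sum_range_sub, Finset.sum_const, Finset.card_range, nsmul_eq_mul] at h2
  have hJ' : (J : ℝ) ≠ 0 := by positivity
  rw [mul_one_div_cancel hJ'] at h2
  linarith [h0 0, h1 J]

theorem FN2_Low (Γ : Subgroup SL(2, ℝ)) (μ : Measure (XG Γ)) (s s' : ℝ) (h : s ≤ s') : Low Γ μ s ⊆ Low Γ μ s' := by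
  intro x hx δ hδ ε hε
  refine (hx δ hδ ε hε).mono fun n hn => le_trans ?_ hn
  apply Real.exp_le_exp.2
  have : 0 ≤ (2 * (n : ℝ)) := by positivity
  nlinarith

theorem FN2_proof (h1 : FN1_stmt) (h2 : KCH_stmt) (h3 : MS.NM3_stmt) (h4 : MS.RHP_stmt) (h5 : EN.XFL_stmt) (h6 : EN.XTX_stmt)
    (h7 : RS.CV1_stmt) (h8 : MS.STB_stmt) : FN2_stmt := by
  intro β α hβ hα
  obtain ⟨y0, hy0, h1⟩ := h1
  obtain ⟨c6, δ1, hc6, hδ1, h1⟩ := h1 β α hβ hα
  -- the constants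
  obtain ⟨q, hq⟩ : ∃ q : ℝ, q = min (min (c6 / 20) (1 / 100)) (δ1 / 2) := ⟨_, rfl⟩
  have hq0 : 0 < q := by rw [hq]; positivity
  have hq1 : q ≤ c6 / 20 := by rw [hq]; exact (min_le_left _ _).trans (min_le_left _ _)
  have hq2 : q ≤ 1 / 100 := by rw [hq]; exact (min_le_left _ _).trans (min_le_right _ _)
  have hq3 : q ≤ δ1 / 2 := by rw [hq]; exact min_le_right _ _
  obtain ⟨η, hη⟩ : ∃ η : ℝ, η = min (c6 / 40) (1 / 100) := ⟨_, rfl⟩
  have hη0 : 0 < η := by rw [hη]; positivity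
  have hη1 : η ≤ c6 / 40 := by rw [hη]; exact min_le_left _ _
  have hη2 : η ≤ 1 / 100 := by rw [hη]; exact min_le_right _ _
  obtain ⟨Δ, hΔ⟩ : ∃ Δ : ℝ, Δ = q ^ 2 / (y0 + 2) := ⟨_, rfl⟩
  have hΔ0 : 0 < Δ := by rw [hΔ]; positivity
  have hΔ2 : (y0 + 2) * Δ = q ^ 2 := by rw [hΔ]; field_simp
  obtain ⟨δ', hδ'⟩ : ∃ δ' : ℝ, δ' = min (Δ / 2) (min (c6 / 20) (1 / 100)) := ⟨_, rfl⟩
  have hδ'0 : 0 < δ' := by rw [hδ']; positivity
  have hδ'1 : δ' ≤ Δ / 2 := by rw [hδ']; exact min_le_left _ _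
  have hδ'2 : δ' ≤ c6 / 20 := by rw [hδ']; exact (min_le_right _ _).trans (min_le_left _ _)
  have hδ'3 : δ' ≤ 1 / 100 := by rw [hδ']; exact (min_le_right _ _).trans (min_le_right _ _)
  obtain ⟨J, hJ⟩ := exists_nat_gt (4 / Δ)
  have hJ0 : (0 : ℝ) < J := lt_trans (by positivity) hJ
  have hJ1 : 1 ≤ J := by exact_mod_cast Nat.pos_of_ne_zero (by rintro rfl; simp at hJ0)
  have hJΔ : 2 * (1 / (J : ℝ)) ≤ Δ / 2 := by
    rw [div_lt_iff₀ hΔ0] at hJ
    have : 1 / (J : ℝ) ≤ Δ / 4 := by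
      rw [div_le_iff₀ hJ0]
      linarith
    linarith
  obtain ⟨ρm, hρm⟩ : ∃ ρm : ℝ, ρm = min (1 / 4000) (c6 / 20000) := ⟨_, rfl⟩
  have hρm0 : 0 < ρm := by rw [hρm]; positivity
  have hρm1 : ρm ≤ 1 / 4000 := by rw [hρm]; exact min_le_left _ _
  have hρm2 : ρm ≤ c6 / 20000 := by rw [hρm]; exact min_le_right _ _
  refine ⟨min (c6 / 4) (1 / 8), ρm / (J + 1), by positivity, by positivity, ?_⟩
  intro Γ F r φ μ hΓ hF hr hφ hn hμ hinv hlow
  -- pigeonhole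
  obtain ⟨i, hiJ, hi⟩ := FN2_pig (fun i => μ.real (Low Γ μ (ρm * ((i : ℝ) + 1) / (J + 1)))) J hJ1
    (fun i => measureReal_nonneg) (fun i => measureReal_le_one)
  obtain ⟨ρ1, hρ1⟩ : ∃ ρ1 : ℝ, ρ1 = ρm * ((i : ℝ) + 1) / (J + 1) := ⟨_, rfl⟩
  obtain ⟨ρ2, hρ2⟩ : ∃ ρ2 : ℝ, ρ2 = ρm * (((i + 1 : ℕ) : ℝ) + 1) / (J + 1) := ⟨_, rfl⟩
  have hi' : μ.real (Low Γ μ ρ2) ≤ μ.real (Low Γ μ ρ1) + 1 / J := by
    rw [hρ1, hρ2]
    exact hi
  have hJp : (0 : ℝ) < J + 1 := by positivity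
  have hρ10 : 0 ≤ ρ1 := by rw [hρ1]; positivity
  have hρ12 : ρ1 < ρ2 := by
    rw [hρ1, hρ2]
    push_cast
    apply div_lt_div_of_pos_right _ hJp
    nlinarith
  have hρ1m : ρ1 ≤ ρm := by
    rw [hρ1, div_le_iff₀ hJp]
    have : ((i : ℝ) + 1) ≤ J := by exact_mod_cast hiJ
    nlinarith
  have hρ01 : ρm / (J + 1) ≤ ρ1 := by
    rw [hρ1]
    apply div_le_div_of_nonneg_right _ hJp.le
    have : (0 : ℝ) ≤ i := by positivity
    nlinarith
  have hm0 : μ.real (Low Γ μ (ρm / (J + 1))) ≤ μ.real (Low Γ μ ρ1) :=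
    measureReal_mono (FN2_Low Γ μ _ _ hρ01) (measure_ne_top _ _)
  obtain ⟨m, hm⟩ : ∃ m : ℝ, m = μ.real (Low Γ μ ρ1) := ⟨_, rfl⟩
  rw [← hm] at hm0
  refine hm0.trans ?_
  by_cases hm38 : m < 3 / 8
  · have : min (c6 / 4) (1 / 8) ≤ 1 / 8 := min_le_right _ _
    linarith
  push Not at hm38
  have hgoal : m ≤ 1 / 2 - c6 / 4 → m ≤ 1 / 2 - min (c6 / 4) (1 / 8) := by
    intro h
    have : min (c6 / 4) (1 / 8) ≤ c6 / 4 := min_le_left _ _
    linarith
  apply hgoal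
  -- the cutoff
  obtain ⟨a1, ha1, h1⟩ := h1 (c6 / 20) (by positivity) Γ F hΓ hF
  obtain ⟨a, Cκ, ha, haa1, ha8, hCκ, hK⟩ := h2 Γ μ ρ1 ρ2 (1 / J) δ' ρm a1 hΓ hμ hinv hρ10 hρ12 hi' (by positivity) hδ'0 hρm0 ha1
  obtain ⟨n1, h1⟩ := h1 a Cκ ha haa1 hCκ
  obtain ⟨N0, A, κ, κa, κn, κl, hN0, hCO, κX, hκX, hκXm, hκi, hκs⟩ := hK (max n1 2)
  have hN1 : n1 ≤ N0 := (le_max_left _ _).trans hN0
  have hN2 : 2 ≤ N0 := (le_max_right _ _).trans hN0
  obtain ⟨R0, hR0, h1⟩ := h1 N0 (ρ1 + ρm) A κ κa κn κl hN1 (by positivity) (by linarith) hCO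
  have hlog : 0 < Real.log N0 := Real.log_pos (by exact_mod_cast hN2)
  -- the space
  obtain ⟨xc, xt, xs⟩ := h6 Γ hΓ
  obtain ⟨hflow, -, -, -, hsX, -, -, -, hfm, -, -, -⟩ := h5 Γ
  have hκ01 : ∀ x, 0 ≤ κX x ∧ κX x ≤ 1 := by
    intro x
    obtain ⟨g, rfl⟩ := hsX x
    rw [hκXm]
    exact hCO.k01 g
  obtain ⟨B, hB⟩ : ∃ B : XG Γ → ℝ, B = FN2_B (fl Γ) κX (Real.log N0) y0 := ⟨_, rfl⟩
  have hBc : Continuous B := by rw [hB]; exact FN2_Bcont (fl Γ) κX hflow hκX _ _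
  have hB0 : ∀ x, 0 ≤ B x := by rw [hB]; exact FN2_B0 (fl Γ) κX hκ01 _ hlog y0
  have hBi : ∫ x, B x ∂μ ≤ q ^ 2 := by
    have hκs' : ∀ s : ℝ, ∫ x, FN2_b (fl Γ) κX s x ∂μ ≤ 2 * (1 / (J : ℝ)) + δ' := by
      intro s
      unfold FN2_b
      exact hκs s
    have e1 := FN2_Bint (fl Γ) κX hflow hκX hκ01 μ (Real.log N0) hlog y0 (2 * (1 / (J : ℝ)) + δ') hκs'
    have e2 : ((y0 : ℝ) + 2) * (2 * (1 / (J : ℝ)) + δ') ≤ ((y0 : ℝ) + 2) * Δ :=
      mul_le_mul_of_nonneg_left (by linarith) (by positivity)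
    rw [hB, ← hΔ2]
    exact e1.trans e2
  have hBm : ∀ g : SL(2, ℝ), B (mkX Γ g) = Bd κ N0 y0 g := by
    intro g
    rw [hB]
    unfold FN2_B Bd FN2_b bad
    simp only [hfm, hκXm]
  have hbdd : ∀ V : XG Γ → ℝ, Continuous V → ∃ m : ℝ, ∀ x, |V x| ≤ m := by
    intro V hV
    obtain ⟨m, hm⟩ := isCompact_univ.exists_bound_of_continuousOn hV.continuousOn
    exact ⟨m, fun x => by simpa using hm x (mem_univ x)⟩
  have hint : ∀ (τ : Measure (XG Γ)), IsProbabilityMeasure τ → ∀ V : XG Γ → ℝ, Continuous V → Integrable V τ := by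
    intro τ hτ V hV
    obtain ⟨m, hm⟩ := hbdd V hV
    exact Integrable.of_bound hV.aestronglyMeasurable m (Eventually.of_forall hm)
  -- the property of `μ`
  have hΨc : Continuous fun x => κX x - 1 / q * B x := hκX.sub (continuous_const.mul hBc)
  have hΨi : m - δ' - q ≤ ∫ x, (κX x - 1 / q * B x) ∂μ := by
    rw [integral_sub (hint μ hμ _ hκX) ((hint μ hμ _ hBc).const_mul _), integral_const_mul]
    have e1 : 1 / q * ∫ x, B x ∂μ ≤ 1 / q * q ^ 2 := mul_le_mul_of_nonneg_left hBi (by positivity)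
    have e2 : 1 / q * q ^ 2 = q := by field_simp
    rw [← hm] at hκi
    linarith
  have hfr := hlow (fun x => κX x - 1 / q * B x) (m - δ' - q - η) hΨc (by linarith)
  have hα4 : BA (1 / 4) α := (h8.2.2.2.2.1 (1 / 8) (1 / 4) α (by norm_num)).2.1 hα
  have hc : TB (1 / 4) (pc β α) := (h7.2.2 (1 / 4) α β hα4.1 hβ.1).1
  obtain ⟨r0, hr0, hNM⟩ := h3 Γ F α β hΓ hF hα4 hβ η hη0
  have hev : ∀ᶠ k in atTop, max R0 r0 ≤ r k := hr.eventually_ge_atTop _
  obtain ⟨k, ⟨t, ht1, ht2, ht3⟩, hk⟩ := (hfr.and_eventually hev).exists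
  have hkR : R0 ≤ r k := (le_max_left _ _).trans hk
  have hkr : r0 ≤ r k := (le_max_right _ _).trans hk
  have hrp : 0 < r k := by linarith
  have hL : EigL Γ (1 / 4 + r k ^ 2) (φ k) :=
    ⟨(hφ k).1.of_le (WithTop.coe_le_coe.2 (le_top : (2 : ℕ∞) ≤ ⊤)), (hφ k).2.1, (hφ k).2.2⟩
  have hI : InvC Γ (φ k) := ⟨FN2_cont _ hL.1, (hφ k).2.1⟩
  have hq4 := (hNM (r k) hkr).2 (φ k) hL
  rw [hn k, mul_one] at hq4
  obtain ⟨Q, hQ⟩ : ∃ Q : ℝ, Q = qn F (pc β α) (r k) (φ k) := ⟨_, rfl⟩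
  rw [← hQ] at hq4 ht3
  obtain ⟨hq5, hq6⟩ := abs_le.1 hq4
  have hQ0 : 0 < Q := by
    by_contra hle
    push Not at hle
    have : r k * Q ≤ 0 := mul_nonpos_of_nonneg_of_nonpos hrp.le hle
    linarith
  have hRH := h4 Γ F (pc β α) (r k) (φ k) hΓ hF hc hI (by rw [← hQ]; exact hQ0)
  rw [← hQ] at hRH
  obtain ⟨hτ, hRH⟩ := hRH
  obtain ⟨τ, hτd⟩ : ∃ τ : Measure (XG Γ), τ = rh Γ F (pc β α) (r k) (φ k) := ⟨_, rfl⟩
  rw [← hτd] at hτ hRH
  have hflc : Continuous (fl Γ t) := FN2_flc (fl Γ) hflow t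
  have hval : ∀ V : XG Γ → ℝ, Continuous V → iR F (fun g => V (mkX Γ (g * aM t)) * ‖pf β α (r k) (φ k) g‖ ^ 2) = Q * ∫ x, V (fl Γ t x) ∂τ := by
    intro V hV
    have hc2 : Continuous fun x => V (fl Γ t x) := hV.comp hflc
    rw [hRH _ hc2.measurable (hbdd _ hc2)]
    simp only [hfm]
    rfl
  rw [hval _ hΨc] at ht3
  have hb3 : m - δ' - q - η < ∫ x, (κX (fl Γ t x) - 1 / q * B (fl Γ t x)) ∂τ := by
    rw [mul_comm] at ht3
    exact lt_of_mul_lt_mul_left ht3 hQ0.le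
  have hκt : Continuous fun x => κX (fl Γ t x) := hκX.comp hflc
  have hBt : Continuous fun x => B (fl Γ t x) := hBc.comp hflc
  rw [integral_sub (hint τ hτ _ hκt) ((hint τ hτ _ hBt).const_mul _), integral_const_mul] at hb3
  obtain ⟨E1, hE1⟩ : ∃ E1 : ℝ, E1 = ∫ x, κX (fl Γ t x) ∂τ := ⟨_, rfl⟩
  obtain ⟨E2, hE2⟩ : ∃ E2 : ℝ, E2 = ∫ x, B (fl Γ t x) ∂τ := ⟨_, rfl⟩
  rw [← hE1, ← hE2] at hb3
  have hE10 : 0 ≤ E1 := by rw [hE1]; exact integral_nonneg fun x => (hκ01 _).1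
  have hE11 : E1 ≤ 1 := by
    rw [hE1]
    have := integral_mono (hint τ hτ _ hκt) (integrable_const (1 : ℝ)) fun x => (hκ01 (fl Γ t x)).2
    rw [integral_const, smul_eq_mul, mul_one, probReal_univ] at this
    exact this
  have hE20 : 0 ≤ E2 := by rw [hE2]; exact integral_nonneg fun x => hB0 _
  have hX1 : EX F β α (r k) (φ k) (fun g => κ (g * aM t)) = r k * Q * E1 := by
    unfold EX
    have := hval κX hκX
    simp only [hκXm] at this
    rw [this, ← hE1, mul_assoc]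
  have hX2 : EX F β α (r k) (φ k) (fun g => Bd κ N0 y0 (g * aM t)) = r k * Q * E2 := by
    unfold EX
    have := hval B hBc
    simp only [hBm] at this
    rw [this, ← hE2, mul_assoc]
  -- numbers
  obtain ⟨x, hx⟩ : ∃ x : ℝ, x = r k * Q := ⟨_, rfl⟩
  rw [← hx] at hX1 hX2 hq5 hq6
  have hE2q : 1 / q * E2 ≤ 1 := by linarith
  have hE2q' : E2 ≤ q := by
    have : 1 / q * E2 = E2 / q := by ring
    rw [this, div_le_one hq0] at hE2q
    exact hE2q
  have hE2n : 0 ≤ 1 / q * E2 := by positivity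
  have hE1l : m - δ' - q - η < E1 := by linarith
  have hxE1 : E1 - η ≤ x * E1 := by
    have e1 : (1 - η) * E1 ≤ x * E1 := mul_le_mul_of_nonneg_right (by linarith) hE10
    have e2 : η * E1 ≤ η * 1 := mul_le_mul_of_nonneg_left hE11 hη0.le
    linarith
  have hxE2 : x * E2 ≤ δ1 := by
    have e1 : x * E2 ≤ 2 * q := mul_le_mul (by linarith) hE2q' hE20 (by norm_num)
    linarith
  have hfin := h1 (r k) t (φ k) hkR hL (hn k) ht1 ht2 (by rw [hX1]; linarith) (by rw [hX2]; exact hxE2)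
  rw [hX1] at hfin
  linarith

end Pool.Agent.T1
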